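import Pool.Agent.Lib.H33K.KMain
import Pool.Agent.Lib.H33K.WMain

/-!
Which Leibniz algebras come from affine algebraic racks?

Over an arbitrary field `k`, a Leibniz algebra is isomorphic to the Leibniz algebra of an affine
algebraic rack if and only if it is finite-dimensional. If `k` has characteristic `0`, then the rack
can be chosen smooth and connected; over every field of positive characteristic there is a
finite-dimensional Lie algebra which does not come from any smooth affine algebraic rack.

* Any characteristic: the rack attached to `q` is the first order neighbourhood `Spec (k ⊕ q*)` of the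
  origin in `q`, with `x ▷ y = y + [x, y]` (file `Lib/H33S/Rack.lean`, which also has all definitions).
* Characteristic `0`: the rack is the component of the base point in an etale scheme over the affine
  space `q`, with `x ▷ y = e_x (ad x) (y)` where `e_x` is an algebraic function of `x` with the properties
  of the exponential (paper proof in `Lib/H33S/PROOF.md`, files `Lib/H33S`, `Lib/H33K`).
* Characteristic `p`: an arc through a tangent vector `d` of a smooth rack gives a higher derivation
  beginning with `1 + t ad d`; the Lie algebra `k d ⋉ P ⋉ P` with `P = k[u, v] / (u^p, v^p)`,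
  `d = ∂_u + u ∂_v`, has none (files `Lib/H33K/W*.lean`).
-/

namespace Pool.Agent.Results.MP_133c3f_al.Complete

open Pool.Agent.Lib.H33S

universe u v

/-- `L` is isomorphic to the Leibniz algebra of some affine algebraic rack `Q = Spec A` which is smooth
over `k`. -/
def IsSmoothAlgebraic {k : Type u} [Field k] {q : Type v} [AddCommGroup q] [Module k q]
    (L : LeibnizAlgebra k q) : Prop :=
  ∃ (A : Type u) (_ : CommRing A) (_ : Algebra k A), Algebra.Smooth k A ∧ L.AlgebraicWith A

/-- `L` is isomorphic to the Leibniz algebra of some affine algebraic rack `Q = Spec A` which is smooth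
over `k` and connected. -/
def IsSmoothConnectedAlgebraic {k : Type u} [Field k] {q : Type v} [AddCommGroup q] [Module k q]
    (L : LeibnizAlgebra k q) : Prop :=
  ∃ (A : Type u) (_ : CommRing A) (_ : Algebra k A), Algebra.Smooth k A ∧
    ConnectedSpace (PrimeSpectrum A) ∧ L.AlgebraicWith A

/-- Over every field `k` a Leibniz algebra is algebraic if and only if it is finite-dimensional. In
characteristic `0` it then comes from a smooth connected affine algebraic rack. In positive
characteristic some finite-dimensional Lie algebra comes from no smooth affine algebraic rack. -/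
theorem result (k : Type u) [Field k] :
    (∀ (q : Type v) [AddCommGroup q] [Module k q] (L : LeibnizAlgebra k q),
      L.IsAlgebraic ↔ FiniteDimensional k q) ∧
    (CharZero k → ∀ (q : Type v) [AddCommGroup q] [Module k q] (L : LeibnizAlgebra k q),
      IsSmoothConnectedAlgebraic L ↔ FiniteDimensional k q) ∧
    (¬ CharZero k → ∃ (q : Type u) (_ : AddCommGroup q) (_ : Module k q) (L : LeibnizAlgebra k q),
      FiniteDimensional k q ∧ (∀ x, L.bracket x x = 0) ∧ ¬ IsSmoothAlgebraic L) := by
  refine ⟨fun q _ _ L => isAlgebraic_iff k q L, fun hk q _ _ L => ⟨?_, ?_⟩, fun hk => ?_⟩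
  · rintro ⟨A, h1, h2, -, -, h4⟩
    exact (isAlgebraic_iff k q L).1 ⟨A, h1, h2, h4⟩
  · intro hfin
    exact Pool.Agent.Lib.H33K.exists_smooth_connected k q L
  · obtain ⟨q, h1, h2, L, h3, h4, h5⟩ := Pool.Agent.Lib.H33K.exists_not_smooth k hk
    refine ⟨q, h1, h2, L, h3, h4, ?_⟩
    rintro ⟨A, h6, h7, h8, h9⟩
    exact h5 A h8 h9

end Pool.Agent.Results.MP_133c3f_al.Complete
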